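import Mathlib
import Pool.Agent.H51.PiC

set_option autoImplicit false

namespace Pool.Agent.Results.MP_426ceb_an.Counter

open Filter Topology Pool.Agent.H51.PiA Pool.Agent.H51.PiB Pool.Agent.H51.PiC

/-- `u` is a `Π_lam`-basis of `E`: finite rank projections of norm at most `lam` that converge
pointwise to the identity. -/
def IsBigPiBasis {E : Type} [NormedAddCommGroup E] [NormedSpace ℝ E] (lam : ℝ)
    (u : ℕ → E →L[ℝ] E) : Prop :=
  (∀ n, FiniteDimensional ℝ (LinearMap.range (u n : E →ₗ[ℝ] E))) ∧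
  (∀ n, (u n).comp (u n) = u n) ∧
  (∀ x, Tendsto (fun n => u n x) atTop (𝓝 x)) ∧
  (∀ n, ‖u n‖ ≤ lam)

/-- `u` is a `π_lam`-basis of `E`: a `Π_lam`-basis whose ranges are nested. -/
def IsSmallPiBasis {E : Type} [NormedAddCommGroup E] [NormedSpace ℝ E] (lam : ℝ)
    (u : ℕ → E →L[ℝ] E) : Prop :=
  IsBigPiBasis lam u ∧
  ∀ m n, m ≤ n → LinearMap.range (u m : E →ₗ[ℝ] E) ≤ LinearMap.range (u n : E →ₗ[ℝ] E)

theorem result :
    ∃ (E : Type) (_ : NormedAddCommGroup E) (_ : NormedSpace ℝ E) (_ : CompleteSpace E),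
      (∃ u : ℕ → E →L[ℝ] E, IsBigPiBasis 1 u) ∧ ¬ ∃ u : ℕ → E →L[ℝ] E, IsSmallPiBasis 1 u := by
  refine ⟨ES, inferInstance, inferInstance, inferInstance,
    ⟨fun n => J.comp ((P (n + 3)).comp R), fun n => ?_, fun n => ?_, fun x => ?_, fun n => ?_⟩, ?_⟩
  · haveI := P_fin (n + 3)
    have : LinearMap.range ((J.comp ((P (n + 3)).comp R) : ES →L[ℝ] ES) : ES →ₗ[ℝ] ES) ≤
        Submodule.map (J : H →ₗ[ℝ] ES) (LinearMap.range (P (n + 3) : H →ₗ[ℝ] H)) := by
      rintro _ ⟨y, rfl⟩
      exact ⟨P (n + 3) (R y), ⟨R y, rfl⟩, rfl⟩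
    exact Submodule.finiteDimensional_of_le this
  · ext1 y
    simp only [ContinuousLinearMap.comp_apply, RJ]
    rw [P_idem _ (by omega)]
  · have := (J.continuous.tendsto (R x)).comp (P_tendsto (R x))
    rw [JR] at this
    exact this
  · refine ContinuousLinearMap.opNorm_le_bound _ zero_le_one (fun y => ?_)
    rw [one_mul]
    simp only [ContinuousLinearMap.comp_apply]
    rw [norm_J]
    apply P_Bd _ (by omega)
    rw [← norm_J, JR]
  · rintro ⟨u, ⟨h1, h2, h3, h4⟩, h5⟩
    have hid : ∀ n y, u n (u n y) = u n y := fun n y => by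
      have := congrArg (fun f : ES →L[ℝ] ES => f y) (h2 n)
      simpa using this
    refine no_chain (fun n => R.comp ((u n).comp J)) (fun n x => ?_) (fun n x C hC => ?_)
      (fun n => ?_) (fun x => ?_) (fun m n hmn x hx => ?_)
    · simp only [ContinuousLinearMap.comp_apply, JR, hid]
    · simp only [ContinuousLinearMap.comp_apply]
      rw [← norm_J] at hC ⊢
      rw [JR]
      refine ((u n).le_opNorm _).trans ?_
      have := h4 n
      nlinarith [norm_nonneg (J x), norm_nonneg (u n)]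
    · haveI := h1 n
      have : LinearMap.range ((R.comp ((u n).comp J) : H →L[ℝ] H) : H →ₗ[ℝ] H) ≤
          Submodule.map (R : ES →ₗ[ℝ] H) (LinearMap.range (u n : ES →ₗ[ℝ] ES)) := by
        rintro _ ⟨y, rfl⟩
        exact ⟨u n (J y), ⟨J y, rfl⟩, rfl⟩
      exact Submodule.finiteDimensional_of_le this
    · exact (R.continuous.tendsto (J x)).comp (h3 (J x))
    · simp only [ContinuousLinearMap.comp_apply] at hx ⊢
      have a1 : u m (J x) = J x := by rw [← JR (u m (J x)), hx]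
      obtain ⟨y, hy⟩ := h5 m n hmn ⟨J x, a1⟩
      have hy' : u n y = J x := hy
      rw [← hy', hid, hy', RJ]

end Pool.Agent.Results.MP_426ceb_an.Counter
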